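import Pool.Agent.N685.FD.DG

/-!
# The 5x+1 map: all integers prime to 5 have the same growth exponent within logarithmic time

`T₅(n) = n / 2` or `(5 n + 1) / 2` on the integers. Let `η = 0.6509...` be the number with
`2 ^ η = 1 + 5 ^ (η - 1)` and `κ = 1 / (log 2 - (1 - 2 ^ (-η)) log 5) = 9.19...`. For every `α ≥ κ` and every
integer `a` not divisible by `5` the number of the `n` with `1 ≤ |n| ≤ x` whose orbit contains `a` at a time
`k ≤ α log |n|` is `x ^ (η + o(1))`: the growth exponent within this time exists, it depends neither on `a` nor on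
`α`, and it is less than `1`. For `1 / log 2 < α ≤ κ` it is an explicit number `expo α`. The orbit of `n` cannot
reach `a` before the time about `(1 / log 2) log |n|`. So the statement of Q1 with the constant `η` is equivalent to an
upper bound for the number of the integers that reach `a` late.

The counting theorems (`Pool.Agent.N685.FD`) are joint work with helper685 and many other authors, see the claim file.
-/

set_option autoImplicit false

namespace Pool.Agent.Results.MP_02a951_nt.SameExponentWithinLogTime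

open Filter Topology

/-- the map `T₅` on the integers -/
def T5 (n : ℤ) : ℤ := if n % 2 = 0 then n / 2 else (5 * n + 1) / 2

/-- the number of the integers `n` with `1 ≤ |n| ≤ x` and `T₅^(k) n ∈ F` for some `k ≤ α log |n|` -/
noncomputable def early (F : Set ℤ) (α x : ℝ) : ℕ :=
  {n : ℤ | n ≠ 0 ∧ |(n : ℝ)| ≤ x ∧ ∃ k : ℕ, T5^[k] n ∈ F ∧ (k : ℝ) ≤ α * Real.log |(n : ℝ)|}.ncard

/-- the number of the integers `n` with `|n| ≤ x` whose orbit contains `a`, but not at a time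
`k ≤ α log |n|` -/
noncomputable def late (a : ℤ) (α x : ℝ) : ℕ :=
  {n : ℤ | |(n : ℝ)| ≤ x ∧ (∃ k : ℕ, T5^[k] n = a) ∧
    ∀ k : ℕ, (k : ℝ) ≤ α * Real.log |(n : ℝ)| → T5^[k] n ≠ a}.ncard

/-- `π_{a,5}(x)`: the number of the integers `n` with `|n| ≤ x` whose orbit contains `a` -/
noncomputable def piFive (a : ℤ) (x : ℝ) : ℕ :=
  {n : ℤ | |(n : ℝ)| ≤ x ∧ ∃ k : ℕ, T5^[k] n = a}.ncard

/-- the exponent `α (H(r) - r log 5)`, `r = (log 2 - 1 / α) / log 5`, `H` the binary entropy -/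
noncomputable def expo (α : ℝ) : ℝ :=
  α * (Real.binEntropy ((Real.log 2 - 1 / α) / Real.log 5) -
    (Real.log 2 - 1 / α) / Real.log 5 * Real.log 5)

theorem T5_eq : T5 = Pool.Agent.N685.FD.T 5 1 := by
  funext n
  unfold T5 Pool.Agent.N685.FD.T
  push_cast
  rfl

theorem expo_eq (α : ℝ) : expo α = Pool.Agent.N685.FD.ex 5 α := by
  unfold expo Pool.Agent.N685.FD.ex Pool.Agent.N685.FD.Fp Pool.Agent.N685.FD.rp
  push_cast
  ring

theorem early_eq (F : Set ℤ) (α x : ℝ) :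
    early F α x = (Pool.Agent.N685.FD.DG.Ct 5 1 F α x).ncard := by
  unfold early Pool.Agent.N685.FD.DG.Ct
  rw [T5_eq]

/-- bounds `x ^ (e ± ε)` for all `ε > 0` give the limit `e` of `log f / log x` -/
theorem tendsto_of {f : ℝ → ℕ} {e : ℝ}
    (h : ∀ ε : ℝ, 0 < ε → ∀ᶠ x : ℝ in atTop, x ^ (e - ε) ≤ (f x : ℝ) ∧ (f x : ℝ) ≤ x ^ (e + ε)) :
    Tendsto (fun x : ℝ => Real.log (f x) / Real.log x) atTop (𝓝 e) := by
  rw [Metric.tendsto_atTop']
  intro ε hε
  have h1 := h (ε / 2) (by positivity)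
  obtain ⟨X, hX⟩ := eventually_atTop.1 (h1.and (eventually_gt_atTop (1 : ℝ)))
  refine ⟨X, fun x hx => ?_⟩
  obtain ⟨⟨h2, h3⟩, h4⟩ := hX x hx.le
  have hx0 : 0 < x := by linarith
  have hl : 0 < Real.log x := Real.log_pos h4
  have hf : 0 < (f x : ℝ) := lt_of_lt_of_le (Real.rpow_pos_of_pos hx0 _) h2
  have h5 : (e - ε / 2) * Real.log x ≤ Real.log (f x) := by
    rw [← Real.log_rpow hx0]
    exact Real.log_le_log (Real.rpow_pos_of_pos hx0 _) h2
  have h6 : Real.log (f x) ≤ (e + ε / 2) * Real.log x := by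
    rw [← Real.log_rpow hx0]
    exact Real.log_le_log hf h3
  have h7 : e - ε / 2 ≤ Real.log (f x) / Real.log x := by rwa [le_div_iff₀ hl]
  have h8 : Real.log (f x) / Real.log x ≤ e + ε / 2 := by rwa [div_le_iff₀ hl]
  rw [Real.dist_eq, abs_lt]
  constructor <;> linarith

/-- the limit gives the upper bound -/
theorem le_of {f : ℝ → ℕ} {e : ℝ} (h : Tendsto (fun x : ℝ => Real.log (f x) / Real.log x) atTop (𝓝 e))
    {ε : ℝ} (hε : 0 < ε) : ∀ᶠ x : ℝ in atTop, (f x : ℝ) ≤ x ^ (e + ε) := by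
  have h1 := h.eventually_lt_const (show e < e + ε by linarith)
  filter_upwards [h1, eventually_gt_atTop (1 : ℝ)] with x h2 h3
  have hx0 : 0 < x := by linarith
  have hl : 0 < Real.log x := Real.log_pos h3
  rcases Nat.eq_zero_or_pos (f x) with h4 | h4
  · rw [h4]
    simpa using (Real.rpow_pos_of_pos hx0 _).le
  · have h5 : (0 : ℝ) < f x := by exact_mod_cast h4
    rw [div_lt_iff₀ hl, ← Real.log_rpow hx0] at h2
    exact ((Real.log_lt_log_iff h5 (Real.rpow_pos_of_pos hx0 _)).1 h2).le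

theorem fin_abs (x : ℝ) : {n : ℤ | |(n : ℝ)| ≤ x}.Finite :=
  Pool.Agent.N685.FD.UN.fin_of (x := x) fun _ hn => hn

theorem zero_orbit (k : ℕ) : T5^[k] 0 = 0 := by
  induction k with
  | zero => rfl
  | succ k ih => rw [Function.iterate_succ_apply', ih]; rfl

theorem early_le_pi (a : ℤ) (α x : ℝ) : early {a} α x ≤ piFive a x := by
  refine Set.ncard_le_ncard ?_ ((fin_abs x).subset fun n hn => hn.1)
  rintro n ⟨-, h2, k, h3, -⟩
  exact ⟨h2, k, h3⟩

theorem late_le_pi (a : ℤ) (α x : ℝ) : late a α x ≤ piFive a x := by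
  refine Set.ncard_le_ncard ?_ ((fin_abs x).subset fun n hn => hn.1)
  rintro n ⟨h1, h2, -⟩
  exact ⟨h1, h2⟩

theorem pi_le {a : ℤ} (ha : a ≠ 0) (α x : ℝ) : piFive a x ≤ early {a} α x + late a α x := by
  classical
  refine le_trans (Set.ncard_le_ncard (t := {n : ℤ | n ≠ 0 ∧ |(n : ℝ)| ≤ x ∧
    ∃ k : ℕ, T5^[k] n ∈ ({a} : Set ℤ) ∧ (k : ℝ) ≤ α * Real.log |(n : ℝ)|} ∪
      {n : ℤ | |(n : ℝ)| ≤ x ∧ (∃ k : ℕ, T5^[k] n = a) ∧
        ∀ k : ℕ, (k : ℝ) ≤ α * Real.log |(n : ℝ)| → T5^[k] n ≠ a}) ?_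
    ((fin_abs x).subset ?_)) (Set.ncard_union_le _ _)
  · rintro n ⟨h1, k, h2⟩
    by_cases h : ∀ k : ℕ, (k : ℝ) ≤ α * Real.log |(n : ℝ)| → T5^[k] n ≠ a
    · exact Or.inr ⟨h1, ⟨k, h2⟩, h⟩
    · push Not at h
      obtain ⟨j, h3, h4⟩ := h
      refine Or.inl ⟨?_, h1, j, h4, h3⟩
      rintro rfl
      rw [zero_orbit] at h4
      exact ha h4.symm
  · rintro n (h | h)
    · exact h.2.1
    · exact h.1

/-- There is a constant `η < 1` (`0.6509 < η < 0.65095`, `2 ^ η = 1 + 5 ^ (η - 1)`) such that with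
`κ = 1 / (log 2 - (1 - 2 ^ (-η)) log 5)`, for every finite set `F` of integers that contains an element not
divisible by `5` (for example `F = {a}`, `a` not divisible by `5`):
(1) for all `α ≥ κ` the logarithm of the number of the `n`, `1 ≤ |n| ≤ x`, whose orbit is in `F` at some time
`k ≤ α log |n|`, divided by `log x`, tends to `η`;
(2) for `1 / log 2 < α ≤ κ` it tends to `expo α`.
(3) For every `a` not divisible by `5` the growth exponent of `a` exists and equals `η` if and only if for every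
`ε > 0` and all large `x` at most `x ^ (η + ε)` integers `n`, `|n| ≤ x`, have `a` in their orbit, but not at a time
`k ≤ κ log |n|`. -/
theorem result : ∃ η κ : ℝ, 0.6509 < η ∧ η < 0.65095 ∧ (2 : ℝ) ^ η = 1 + 5 ^ (η - 1) ∧
    κ = 1 / (Real.log 2 - (1 - (2 : ℝ) ^ (-η)) * Real.log 5) ∧ 1 / Real.log 2 < κ ∧
    (∀ F : Set ℤ, F.Finite → (∃ m ∈ F, ¬ (5 : ℤ) ∣ m) →
      (∀ α : ℝ, κ ≤ α →
        Tendsto (fun x : ℝ => Real.log (early F α x) / Real.log x) atTop (𝓝 η)) ∧
      (∀ α : ℝ, 1 / Real.log 2 < α → α ≤ κ →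
        Tendsto (fun x : ℝ => Real.log (early F α x) / Real.log x) atTop (𝓝 (expo α)))) ∧
    ∀ a : ℤ, ¬ (5 : ℤ) ∣ a →
      (Tendsto (fun x : ℝ => Real.log (piFive a x) / Real.log x) atTop (𝓝 η) ↔
        ∀ ε : ℝ, 0 < ε → ∀ᶠ x : ℝ in atTop, (late a κ x : ℝ) ≤ x ^ (η + ε)) := by
  obtain ⟨η, hη⟩ := Pool.Agent.N685.FD.DG.exists_eta5
  have hd : Pool.Agent.N685.FD.Adm 5 1 := ⟨Or.inr rfl, by norm_num, by norm_num⟩
  have hgood : ∀ F : Set ℤ, F.Finite → (∃ m ∈ F, ¬ (5 : ℤ) ∣ m) → Pool.Agent.N685.FD.DG.Good 5 F := by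
    rintro F hF ⟨m, hm, h5⟩
    refine ⟨hF, m, hm, ?_, by exact_mod_cast h5⟩
    rintro rfl
    exact h5 (dvd_zero _)
  have hhigh : ∀ F : Set ℤ, F.Finite → (∃ m ∈ F, ¬ (5 : ℤ) ∣ m) → ∀ α : ℝ,
      Pool.Agent.N685.FD.Five.kap η ≤ α → ∀ ε : ℝ, 0 < ε → ∀ᶠ x : ℝ in atTop,
        x ^ (η - ε) ≤ (early F α x : ℝ) ∧ (early F α x : ℝ) ≤ x ^ (η + ε) := by
    intro F hF hm α hα ε hε
    obtain ⟨X₀, -, h⟩ := Pool.Agent.N685.FD.DG.count5_high hd (hgood F hF hm) hη hα hε
    filter_upwards [eventually_ge_atTop X₀] with x hx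
    rw [early_eq]
    exact h x hx
  refine ⟨η, Pool.Agent.N685.FD.Five.kap η, hη.1, hη.2.1, hη.2.2, rfl,
    Pool.Agent.N685.FD.Five.kap_gt hη, ?_, ?_⟩
  · intro F hF hm
    refine ⟨fun α hα => tendsto_of (hhigh F hF hm α hα), fun α h1 h2 => tendsto_of ?_⟩
    intro ε hε
    obtain ⟨X₀, -, h⟩ := Pool.Agent.N685.FD.DG.count5_low hd (hgood F hF hm) hη h1 h2 hε
    filter_upwards [eventually_ge_atTop X₀] with x hx
    rw [early_eq, expo_eq]
    exact h x hx
  · intro a ha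
    have ha0 : a ≠ 0 := by
      rintro rfl
      exact ha (dvd_zero _)
    have hF : ({a} : Set ℤ).Finite := Set.finite_singleton a
    have hm : ∃ m ∈ ({a} : Set ℤ), ¬ (5 : ℤ) ∣ m := ⟨a, rfl, ha⟩
    constructor
    · intro h ε hε
      filter_upwards [le_of h hε] with x hx
      exact le_trans (by exact_mod_cast late_le_pi a _ x) hx
    · intro h
      refine tendsto_of fun ε hε => ?_
      have h2 : ∀ᶠ x : ℝ in atTop, (2 : ℝ) ≤ x ^ (ε / 2) :=
        (tendsto_rpow_atTop (by positivity : 0 < ε / 2)).eventually_ge_atTop 2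
      filter_upwards [hhigh {a} hF hm _ le_rfl (ε / 2) (by positivity), h (ε / 2) (by positivity), h2,
        eventually_ge_atTop (1 : ℝ)] with x h3 h4 h5 h6
      have hx0 : 0 < x := by linarith
      have h7 : x ^ (η - ε) ≤ x ^ (η - ε / 2) := Real.rpow_le_rpow_of_exponent_le h6 (by linarith)
      have h8 : (early {a} (Pool.Agent.N685.FD.Five.kap η) x : ℝ) ≤ piFive a x := by
        exact_mod_cast early_le_pi a _ x
      have h9 : (piFive a x : ℝ) ≤ early {a} (Pool.Agent.N685.FD.Five.kap η) x +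
          late a (Pool.Agent.N685.FD.Five.kap η) x := by
        exact_mod_cast pi_le ha0 _ x
      refine ⟨by linarith [h3.1], ?_⟩
      have h10 : x ^ (η + ε) = x ^ (ε / 2) * x ^ (η + ε / 2) := by
        rw [← Real.rpow_add hx0]
        congr 1
        ring
      have h11 : 0 ≤ x ^ (η + ε / 2) := (Real.rpow_pos_of_pos hx0 _).le
      rw [h10]
      nlinarith [h3.2]

end Pool.Agent.Results.MP_02a951_nt.SameExponentWithinLogTime
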